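import Pool.Agent.Work.MP_e09eef_gt.Arc4
import Pool.Agent.Work.MP_e09eef_gt.Statement

/-!
# Arc ordered fillings of the circle have area at least `2π`

`Circ`, `LInf`, `Chain2`, `IsLipschitzChain`, `boundary`, `fundCycle`, `areaMult`, `chainVol` are
the pieces of the frozen statement S14113 (file `Work/MP_e09eef_gt/Statement.lean`).

Let `c = ∑ n_σ σ` be a filling of the circle and let `Θ` be a 1-Lipschitz self-map of `L^∞(S¹)`
which fixes the embedded circle pointwise (for instance the identity, or
`Θ y p = (y p - y (p + π) + π) / 2`). For `0 ≤ s < π` consider the functions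
`h_s = (Θ ∘ σ)(·)(s)` on the triangle. The filling is arc ordered when at almost every point of
every simplex the differentials `dh_s` turn in one direction, the one of the orientation,
as `s` runs over the half circle: `n_σ · dh_s ∧ dh_t ≥ 0` for `0 ≤ s < t < π`.
-/

set_option autoImplicit false

open Pool.Agent.FillVol

namespace Pool.Agent.Results.MP_e09eef_gt.ArcOrderedFillings

/-- The open triangle. -/
def OpenTriangle : Set (ℝ × ℝ) := {y | 0 < y.1 ∧ 0 < y.2 ∧ y.1 + y.2 < 1}

/-- The affine chart of the standard simplex. -/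
def chart (y : ℝ × ℝ) : Fin 3 → ℝ := ![1 - y.1 - y.2, y.1, y.2]

/-- The Jacobian determinant of `g : ℝ² → ℝ²` (Fréchet derivative, `0` where `g` is not
differentiable). -/
noncomputable def jacobian (g : ℝ × ℝ → ℝ × ℝ) (x : ℝ × ℝ) : ℝ :=
  (fderiv ℝ g x (1, 0)).1 * (fderiv ℝ g x (0, 1)).2 -
    (fderiv ℝ g x (1, 0)).2 * (fderiv ℝ g x (0, 1)).1

/-- The filling `c`, seen through `Θ`, is arc ordered. -/
def ArcOrdered (Θ : LInf → LInf) (c : Chain2) : Prop :=
  ∀ σ ∈ c.support, ∀ s t : ℝ, 0 ≤ s → s < t → t < Real.pi →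
    ∀ᵐ x ∂(MeasureTheory.volume.restrict OpenTriangle),
      0 ≤ (c σ : ℝ) * jacobian (fun x : ℝ × ℝ =>
        (Θ (σ (chart x)) (s : Circ), Θ (σ (chart x)) (t : Circ))) x

/-- **Every arc ordered filling of the circle of length `2π` has area at least `2π`**, the area
of the hemisphere. -/
theorem result :
    ∀ f : Circ → LInf, (∀ m x : Circ, (f m) x = dist m x) →
      ∀ c : Chain2, IsLipschitzChain c → boundary c = fundCycle f →
        ∀ Θ : LInf → LInf, LipschitzWith 1 Θ → (∀ m, Θ (f m) = f m) → ArcOrdered Θ c →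
          ENNReal.ofReal (2 * Real.pi) ≤ chainVol c := by
  intro f hf c h1 h2 Θ hΘ hΘf hord
  exact arc_bound hf c h1 h2 hΘ hΘf hord

end Pool.Agent.Results.MP_e09eef_gt.ArcOrderedFillings
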