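import Pool.Agent.Work.MP_e09eef_gt.Final
import Pool.Agent.Work.MP_e09eef_gt.Statement

/-!
# `FillVol(S¹) ≥ π³ / 6`

The infimum below unfolds, symbol for symbol, to the one of the frozen statement of the problem:
Lipschitz integral 2-chains `c` in `L^∞(S¹)` whose boundary is the fundamental cycle of the circle
of length `2π` embedded by `m ↦ dist m ·`, measured by the normalised 2-dimensional Hausdorff
measure with multiplicity.
-/

set_option autoImplicit false

open Pool.Agent.FillVol

namespace Pool.Agent.Results.MP_e09eef_gt.LowerBoundPiCubed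

/-- **FillVol(S¹) ≥ π³/6 ≈ 5.1677.** -/
theorem result :
    ∀ f : Circ → LInf, (∀ m x : Circ, (f m) x = dist m x) →
      ENNReal.ofReal (Real.pi ^ 3 / 6) ≤
        ⨅ (c : Chain2) (_ : IsLipschitzChain c ∧ boundary c = fundCycle f), chainVol c := by
  intro f hf
  refine le_iInf fun c => le_iInf fun hc => ?_
  exact main_bound hf c hc.1 hc.2

/-- Check (not part of the hand-in): the infimum is the one of the frozen statement. -/
theorem same_infimum (f : Circ → LInf) :
    (⨅ (c : Chain2) (_ : IsLipschitzChain c ∧ boundary c = fundCycle f), chainVol c) =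
      (⨅ (c : ((Fin 3 → ℝ) → lp (fun _ : AddCircle (2 * Real.pi) => ℝ) (⊤ : ENNReal)) →₀ ℤ)
          (_ : (∀ σ ∈ c.support, ∃ K, LipschitzOnWith K σ (stdSimplex ℝ (Fin 3))) ∧
            c.sum (fun σ n => ∑ i : Fin 3,
              Finsupp.single
                ((stdSimplex ℝ (Fin 2)).restrict
                  (fun x : Fin 2 → ℝ => σ (fun k : Fin 3 =>
                    ∑ j : Fin 2, if i.succAbove j = k then x j else (0 : ℝ))))
                ((-1 : ℤ) ^ (i : ℕ) * n))
            = ∑ j : Fin 3,
              Finsupp.single
                ((stdSimplex ℝ (Fin 2)).restrict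
                  (fun t : Fin 2 → ℝ =>
                    f (((2 * Real.pi / 3 * (((j : ℕ) : ℝ) + t 1) : ℝ) : AddCircle (2 * Real.pi)))))
                (1 : ℤ)),
          c.sum (fun σ n =>
            ((n.natAbs : ENNReal)) *
              (ENNReal.ofReal (Real.pi / 4) *
                ∑' k : ℕ,
                  (MeasureTheory.OuterMeasure.mkMetric (fun r : ENNReal => r ^ (2 : ℝ)) :
                      MeasureTheory.OuterMeasure
                        (lp (fun _ : AddCircle (2 * Real.pi) => ℝ) (⊤ : ENNReal)))
                    {y : lp (fun _ : AddCircle (2 * Real.pi) => ℝ) (⊤ : ENNReal) |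
                      (((k + 1 : ℕ) : ℕ∞)) ≤
                        Set.encard {z | z ∈ stdSimplex ℝ (Fin 3) ∧ σ z = y}}))) :=
  rfl

end Pool.Agent.Results.MP_e09eef_gt.LowerBoundPiCubed
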