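import Pool.Agent.Work.MP_e09eef_gt.Riem4
import Pool.Agent.Work.MP_e09eef_gt.Statement

/-!
# Riemannian fillings of the circle: area at least `14 ζ(3) / π`

`Circ`, `LInf`, `Chain2`, `IsLipschitzChain`, `boundary`, `fundCycle` are the pieces of the frozen
statement S14113 (file `Work/MP_e09eef_gt/Statement.lean`).

A filling `c = ∑ n_σ σ` of any genus is given together with a field of positive semidefinite
quadratic forms `g = E dx² + 2 F dx dy + H dy²` on each of its simplices, for which all the
distance coordinates `x ↦ σ(x)(s)`, `s ∈ S¹`, are 1-Lipschitz in the infinitesimal sense. For a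
compact oriented Riemannian surface `(M, g)` of any genus with boundary `S¹`, whose distance
function restricts to that of `S¹` on the boundary, one takes a triangulation of `M` and the map
`x ↦ dist(x, ·)|S¹`. The area of the metrics is then at least
`(16 / π) ∑ 1 / (2 l + 1)³ = 14 ζ(3) / π ≈ 5.357`.
-/

set_option autoImplicit false

open Pool.Agent.FillVol

namespace Pool.Agent.Results.MP_e09eef_gt.RiemannianFillings

/-- The open triangle. -/
def OpenTriangle : Set (ℝ × ℝ) := {y | 0 < y.1 ∧ 0 < y.2 ∧ y.1 + y.2 < 1}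

/-- The affine chart of the standard simplex. -/
def chart (y : ℝ × ℝ) : Fin 3 → ℝ := ![1 - y.1 - y.2, y.1, y.2]

/-- For each simplex `σ` of the chain and each boundary point `s`, the differential of
`y ↦ σ(y)(s)` has norm at most one for the quadratic form `E dx² + 2 F dx dy + H dy²`, at almost
every point `y` of the triangle. -/
def Dominates (c : Chain2) (E F H : ((Fin 3 → ℝ) → LInf) → ℝ × ℝ → ℝ) : Prop :=
  ∀ σ ∈ c.support, ∀ s : ℝ, ∀ᵐ y ∂(MeasureTheory.volume.restrict OpenTriangle),
    ∀ v : ℝ × ℝ, (fderiv ℝ (fun y : ℝ × ℝ => σ (chart y) (s : Circ)) y v) ^ 2 ≤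
      E σ y * v.1 ^ 2 + 2 * F σ y * (v.1 * v.2) + H σ y * v.2 ^ 2

/-- The area of the metrics, `∑ |n_σ| ∫ √(E H - F²)`. -/
noncomputable def metricArea (c : Chain2) (E F H : ((Fin 3 → ℝ) → LInf) → ℝ × ℝ → ℝ) : ENNReal :=
  ∑ σ ∈ c.support, ((c σ).natAbs : ENNReal) *
    ∫⁻ y in OpenTriangle, ENNReal.ofReal (Real.sqrt (E σ y * H σ y - F σ y ^ 2))

/-- **Every Riemannian filling of the circle of length `2π`, of any genus, has area at least
`(16 / π) ∑ 1 / (2 l + 1)³ = 14 ζ(3) / π`.** -/
theorem result :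
    ∀ f : Circ → LInf, (∀ m x : Circ, (f m) x = dist m x) →
      ∀ c : Chain2, IsLipschitzChain c → boundary c = fundCycle f →
        ∀ E F H : ((Fin 3 → ℝ) → LInf) → ℝ × ℝ → ℝ, Dominates c E F H →
          ENNReal.ofReal (16 / Real.pi * ∑' l : ℕ, 1 / (2 * (l : ℝ) + 1) ^ 3) ≤
            metricArea c E F H := by
  intro f hf c h1 h2 E F H hg
  exact riem_bound hf c h1 h2 E F H hg

end Pool.Agent.Results.MP_e09eef_gt.RiemannianFillings
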